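import Mathlib

set_option autoImplicit false

namespace Pool.Agent.Results.MP_9d843c_co.SignedOrthogonality

/-- vectors in `{-1,0,1}^n` with exactly `k` nonzero coordinates -/
def Vec (n k : ℕ) : Type :=
  {v : Fin n → ℤ // (∀ i, v i = -1 ∨ v i = 0 ∨ v i = 1) ∧
    (Finset.univ.filter (fun i => v i ≠ 0)).card = k}

/-- the graph `J_±(n,k,t)` -/
def J (n k : ℕ) (t : ℤ) : SimpleGraph (Vec n k) where
  Adj u v := u ≠ v ∧ ∑ i, u.1 i * v.1 i = t
  symm := ⟨fun u v h => ⟨h.1.symm, by rw [← h.2]; exact Finset.sum_congr rfl (fun i _ => mul_comm _ _)⟩⟩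
  loopless := ⟨fun _ h => h.1 rfl⟩

/-- choosing a sequence avoiding few bad triples -/
lemma exists_avoid {ι α : Type} [Fintype ι] [DecidableEq ι] [Fintype α] [DecidableEq α]
    (T : Finset (Fin 3 → α)) (h : (Fintype.card ι) ^ 3 * T.card < (Fintype.card α) ^ 3) :
    ∃ f : ι → α, ∀ p : Fin 3 → ι, Function.Injective p → f ∘ p ∉ T := by
  classical
  by_contra hcon
  push Not at hcon
  set m := Fintype.card α with hm
  set R := Fintype.card ι with hR
  let B : (Fin 3 → ι) → Finset (ι → α) := fun p => Finset.univ.filter (fun f => f ∘ p ∈ T)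
  have hB : ∀ p : Fin 3 → ι, Function.Injective p → (B p).card * m ^ 3 ≤ T.card * m ^ R := by
    intro p hp
    have h1 : ((B p) ×ˢ (Finset.univ : Finset (Fin 3 → α))).card ≤
        (T ×ˢ (Finset.univ : Finset (ι → α))).card := by
      apply Finset.card_le_card_of_injOn (fun x => (x.1 ∘ p, Function.extend p x.2 x.1))
      · intro x hx
        rw [Finset.mem_coe, Finset.mem_product] at hx ⊢
        exact ⟨(Finset.mem_filter.1 hx.1).2, Finset.mem_univ _⟩
      · rintro ⟨f, g⟩ _ ⟨f', g'⟩ _ heq
        simp only [Prod.mk.injEq] at heq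
        obtain ⟨e1, e2⟩ := heq
        have hg : g = g' := by
          funext t
          have := congrFun e2 (p t)
          rwa [hp.extend_apply, hp.extend_apply] at this
        have hf : f = f' := by
          funext i
          by_cases hi : ∃ t, p t = i
          · obtain ⟨t, rfl⟩ := hi
            exact congrFun e1 t
          · have := congrFun e2 i
            rwa [Function.extend_apply' _ _ _ hi, Function.extend_apply' _ _ _ hi] at this
        rw [hf, hg]
    rw [Finset.card_product, Finset.card_product, Finset.card_univ, Finset.card_univ,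
      Fintype.card_fun, Fintype.card_fun, Fintype.card_fin] at h1
    exact h1
  have hcov : (Finset.univ : Finset (ι → α)) ⊆
      (Finset.univ.filter (fun p : Fin 3 → ι => Function.Injective p)).biUnion B := by
    intro f _
    obtain ⟨p, hp, hf⟩ := hcon f
    rw [Finset.mem_biUnion]
    exact ⟨p, by simp [hp], by simp [B, hf]⟩
  have h2 := (Finset.card_le_card hcov).trans Finset.card_biUnion_le
  rw [Finset.card_univ, Fintype.card_fun] at h2
  have h3 : m ^ R * m ^ 3 ≤ R ^ 3 * T.card * m ^ R := by
    calc m ^ R * m ^ 3 ≤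
        (∑ p ∈ Finset.univ.filter (fun p : Fin 3 → ι => Function.Injective p), (B p).card) *
          m ^ 3 := Nat.mul_le_mul_right _ h2
      _ = ∑ p ∈ Finset.univ.filter (fun p : Fin 3 → ι => Function.Injective p),
          (B p).card * m ^ 3 := by rw [Finset.sum_mul]
      _ ≤ ∑ p ∈ Finset.univ.filter (fun p : Fin 3 → ι => Function.Injective p),
          T.card * m ^ R := by
        apply Finset.sum_le_sum
        intro p hp
        exact hB p (Finset.mem_filter.1 hp).2
      _ ≤ ∑ p : Fin 3 → ι, T.card * m ^ R :=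
        Finset.sum_le_sum_of_subset (Finset.filter_subset _ _)
      _ = R ^ 3 * T.card * m ^ R := by
        rw [Finset.sum_const, Finset.card_univ, Fintype.card_fun, Fintype.card_fin, smul_eq_mul]
        ring
  have hmpos : 0 < m := by
    by_contra h0
    have : m = 0 := by omega
    rw [this] at h
    simp at h
  have h4 : m ^ 3 ≤ R ^ 3 * T.card := by
    have : 0 < m ^ R := by positivity
    rw [mul_comm (m ^ R)] at h3
    exact Nat.le_of_mul_le_mul_right h3 this
  omega

/-- a monochromatic `K_{2,2}` -/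
lemma exists_mono {Q : Type} [Fintype Q] (s t : ℕ) (hs : Fintype.card Q < s)
    (ht : s * s * Fintype.card Q < t) (χ : Fin s → Fin t → Q) :
    ∃ a1 a2 b1 b2, a1 ≠ a2 ∧ b1 ≠ b2 ∧ χ a2 b1 = χ a1 b1 ∧ χ a1 b2 = χ a1 b1 ∧
      χ a2 b2 = χ a1 b1 := by
  have h1 : ∀ b, ∃ a a', a ≠ a' ∧ χ a b = χ a' b := fun b =>
    Fintype.exists_ne_map_eq_of_card_lt (fun a => χ a b) (by simpa using hs)
  choose a a' hne hχ using h1
  obtain ⟨b1, b2, hb, heq⟩ := Fintype.exists_ne_map_eq_of_card_lt
    (fun b => ((a b, a' b), χ (a b) b)) (by simpa using ht)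
  simp only [Prod.mk.injEq] at heq
  obtain ⟨⟨e1, e2⟩, e3⟩ := heq
  refine ⟨a b1, a' b1, b1, b2, hne b1, hb, (hχ b1).symm, ?_, ?_⟩
  · rw [e3, e1]
  · rw [e3, e2, ← hχ b2]

/-- support -/
def supp {n k : ℕ} (v : Vec n k) : Finset (Fin n) := Finset.univ.filter (fun i => v.1 i ≠ 0)

lemma mem_supp {n k : ℕ} (v : Vec n k) (i : Fin n) : i ∈ supp v ↔ v.1 i ≠ 0 := by
  simp [supp]

lemma card_supp {n k : ℕ} (v : Vec n k) : (supp v).card = k := v.2.2

/-- structure of a colour class -/
lemma class_structure {n : ℕ} (F : Set (Vec n 4))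
    (hF : ∀ u ∈ F, ∀ v ∈ F, u ≠ v → ∑ i, u.1 i * v.1 i ≠ 0) (i0 : Fin n) :
    ∃ (P : Finset (Fin n × Fin n)) (i : Fin n) (W : Fin n → Finset (Fin n)) (τ : Fin n → Bool),
      P.card ≤ 16 ∧ (∀ j, (W j).card ≤ 4) ∧
      ∀ u ∈ F, (∃ x y, (x, y) ∈ P ∧ x ≠ y ∧ u.1 x ≠ 0 ∧ u.1 y ≠ 0) ∨
        (u.1 i ≠ 0 ∧ ∀ j, j ≠ i → u.1 j ≠ 0 →
          (∃ k ∈ W j, k ≠ i ∧ k ≠ j ∧ u.1 k ≠ 0) ∨ (u.1 i * u.1 j = 1 ↔ τ j = true)) := by
  classical
  rcases Set.eq_empty_or_nonempty F with rfl | ⟨v0, hv0⟩
  · exact ⟨∅, i0, fun _ => ∅, fun _ => false, by simp, by simp, by simp⟩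
  by_cases hcom : ∃ i, ∀ v ∈ F, v.1 i ≠ 0
  · obtain ⟨i, hi⟩ := hcom
    let bad : Fin n → Prop := fun j =>
      ∃ v ∈ F, ∃ w ∈ F, v.1 i * v.1 j = 1 ∧ w.1 i * w.1 j = -1
    have hW : ∀ j, ∃ W : Finset (Fin n), W.card ≤ 4 ∧ (j ≠ i → bad j → ∀ u ∈ F, u.1 j ≠ 0 →
        ∃ k ∈ W, k ≠ i ∧ k ≠ j ∧ u.1 k ≠ 0) := by
      intro j
      by_cases hb : j ≠ i ∧ bad j
      · obtain ⟨hji, v, hv, w, hw, hvj, hwj⟩ := hb
        have hcard : ∀ z : Vec n 4, z.1 i ≠ 0 → z.1 j ≠ 0 → (supp z \ {i, j}).card = 2 := by
          intro z hzi hzj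
          rw [Finset.card_sdiff_of_subset]
          · rw [card_supp, Finset.card_pair hji.symm]
          · intro x hx
            rw [Finset.mem_insert, Finset.mem_singleton] at hx
            rw [mem_supp]
            rcases hx with rfl | rfl <;> assumption
        have hvj0 : v.1 j ≠ 0 := by
          rintro h0; rw [h0] at hvj; simp at hvj
        have hwj0 : w.1 j ≠ 0 := by
          rintro h0; rw [h0] at hwj; simp at hwj
        refine ⟨(supp v \ {i, j}) ∪ (supp w \ {i, j}), ?_, ?_⟩
        · refine (Finset.card_union_le _ _).trans ?_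
          rw [hcard v (hi v hv) hvj0, hcard w (hi w hw) hwj0]
        · intro _ _ u hu huj
          -- `u` and an opposite vector share a third coordinate
          have key : ∀ z ∈ F, z.1 i * z.1 j = -(u.1 i * u.1 j) →
              ∃ k, k ≠ i ∧ k ≠ j ∧ u.1 k ≠ 0 ∧ z.1 k ≠ 0 := by
            intro z hz hzu
            have hui := u.2.1 i
            have huj' := u.2.1 j
            have hzi := z.2.1 i
            have hzj := z.2.1 j
            have hui0 := hi u hu
            have hzi0 := hi z hz
            have hne : u ≠ z := by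
              rintro rfl
              have : u.1 i * u.1 j ≠ 0 := mul_ne_zero hui0 huj
              omega
            have hsum := hF u hu z hz hne
            have hij : u.1 i * z.1 i + u.1 j * z.1 j = 0 := by
              rcases hui with a | a | a <;> rcases huj' with b | b | b <;>
                rcases hzi with c | c | c <;> rcases hzj with d | d | d <;>
                simp only [a, b, c, d] at hzu hui0 huj hzi0 ⊢ <;> omega
            by_contra hcon
            push Not at hcon
            apply hsum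
            rw [← Finset.add_sum_erase _ _ (Finset.mem_univ i),
              ← Finset.add_sum_erase _ _ (Finset.mem_erase.2 ⟨hji, Finset.mem_univ j⟩),
              ← add_assoc, hij, zero_add]
            apply Finset.sum_eq_zero
            intro k hk
            rw [Finset.mem_erase, Finset.mem_erase] at hk
            by_cases hk0 : u.1 k = 0
            · rw [hk0, zero_mul]
            · rw [hcon k hk.2.1 hk.1 hk0, mul_zero]
          have hprod : u.1 i * u.1 j = 1 ∨ u.1 i * u.1 j = -1 := by
            have hui0 := hi u hu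
            rcases u.2.1 i with a | a | a <;> rcases u.2.1 j with b | b | b <;>
              simp only [a, b] at hui0 huj ⊢ <;> omega
          rcases hprod with h1 | h1
          · obtain ⟨k, hki, hkj, huk, hzk⟩ := key w hw (by rw [h1, hwj])
            refine ⟨k, ?_, hki, hkj, huk⟩
            rw [Finset.mem_union, Finset.mem_sdiff, Finset.mem_sdiff, mem_supp, mem_supp]
            right
            refine ⟨hzk, ?_⟩
            rw [Finset.mem_insert, Finset.mem_singleton]
            tauto
          · obtain ⟨k, hki, hkj, huk, hzk⟩ := key v hv (by rw [h1, hvj]; norm_num)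
            refine ⟨k, ?_, hki, hkj, huk⟩
            rw [Finset.mem_union, Finset.mem_sdiff, Finset.mem_sdiff, mem_supp, mem_supp]
            left
            refine ⟨hzk, ?_⟩
            rw [Finset.mem_insert, Finset.mem_singleton]
            tauto
      · exact ⟨∅, by simp, fun h1 h2 => absurd ⟨h1, h2⟩ hb⟩
    choose W hWc hW using hW
    refine ⟨∅, i, W, fun j => decide (∃ v ∈ F, v.1 i * v.1 j = 1), by simp, hWc, ?_⟩
    intro u hu
    refine Or.inr ⟨hi u hu, fun j hji huj => ?_⟩
    by_cases hb : bad j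
    · exact Or.inl (hW j hji hb u hu huj)
    · right
      rw [decide_eq_true_eq]
      constructor
      · intro h; exact ⟨u, hu, h⟩
      · rintro ⟨v, hv, hvj⟩
        by_contra h1
        apply hb
        refine ⟨v, hv, u, hu, hvj, ?_⟩
        have hui0 := hi u hu
        rcases u.2.1 i with a | a | a <;> rcases u.2.1 j with b | b | b <;>
          simp only [a, b] at hui0 huj h1 ⊢ <;> omega
  · push Not at hcom
    choose g hgF hg using hcom
    refine ⟨(supp v0).biUnion (fun x => (supp (g x)).image (fun y => (x, y))), i0, fun _ => ∅,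
      fun _ => false, ?_, by simp, ?_⟩
    · refine Finset.card_biUnion_le.trans ?_
      calc ∑ x ∈ supp v0, ((supp (g x)).image (fun y => (x, y))).card
          ≤ ∑ x ∈ supp v0, 4 := by
            apply Finset.sum_le_sum
            intro x _
            exact Finset.card_image_le.trans (card_supp _).le
        _ = 16 := by rw [Finset.sum_const, card_supp]; norm_num
    · intro w hw
      left
      obtain ⟨x, hx0, hxw⟩ : ∃ x, v0.1 x ≠ 0 ∧ w.1 x ≠ 0 := by
        by_cases hwv : w = v0
        · have : (supp v0).Nonempty := by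
            rw [← Finset.card_pos, card_supp]; norm_num
          obtain ⟨x, hx⟩ := this
          rw [mem_supp] at hx
          exact ⟨x, hx, by rw [hwv]; exact hx⟩
        · have := hF w hw v0 hv0 hwv
          obtain ⟨x, -, hx⟩ := Finset.exists_ne_zero_of_sum_ne_zero this
          exact ⟨x, right_ne_zero_of_mul hx, left_ne_zero_of_mul hx⟩
      have hne : w ≠ g x := by
        intro h
        rw [h] at hxw
        exact hxw (hg x)
      obtain ⟨y, -, hy⟩ := Finset.exists_ne_zero_of_sum_ne_zero (hF w hw (g x) (hgF x) hne)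
      have hy1 := left_ne_zero_of_mul hy
      have hy2 := right_ne_zero_of_mul hy
      refine ⟨x, y, ?_, ?_, hxw, hy1⟩
      · rw [Finset.mem_biUnion]
        exact ⟨x, (mem_supp _ _).2 hx0, Finset.mem_image_of_mem _ ((mem_supp _ _).2 hy2)⟩
      · rintro rfl
        exact hy2 (hg x)

lemma exists_enum {β : Type} (s : Finset β) (N : ℕ) (h : s.card ≤ N) :
    ∃ g : Fin N → Option β, ∀ c ∈ s, ∃ r, g r = some c := by
  refine ⟨fun r => s.toList[(r : ℕ)]?, fun c hc => ?_⟩
  have hc' : c ∈ s.toList := Finset.mem_toList.2 hc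
  obtain ⟨i, hi, hi'⟩ := List.getElem_of_mem hc'
  have hi2 : i < N := by
    rw [Finset.length_toList] at hi
    omega
  refine ⟨⟨i, hi2⟩, ?_⟩
  simp only
  rw [List.getElem?_eq_getElem hi, hi']

/-- the vector with signs `+ - + -` on four distinct coordinates -/
def vec4 {n : ℕ} (x1 x2 x3 x4 : Fin n) : Fin n → ℤ := fun z =>
  if z = x1 then 1 else if z = x2 then -1 else if z = x3 then 1 else if z = x4 then -1 else 0

lemma vec4_mem {n : ℕ} (x1 x2 x3 x4 : Fin n) (h12 : x1 ≠ x2) (h13 : x1 ≠ x3) (h14 : x1 ≠ x4)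
    (h23 : x2 ≠ x3) (h24 : x2 ≠ x4) (h34 : x3 ≠ x4) :
    (∀ i, vec4 x1 x2 x3 x4 i = -1 ∨ vec4 x1 x2 x3 x4 i = 0 ∨ vec4 x1 x2 x3 x4 i = 1) ∧
    (Finset.univ.filter (fun i => vec4 x1 x2 x3 x4 i ≠ 0)).card = 4 := by
  classical
  constructor
  · intro i
    unfold vec4
    split_ifs <;> simp
  · have : Finset.univ.filter (fun i => vec4 x1 x2 x3 x4 i ≠ 0) = {x1, x2, x3, x4} := by
      ext z
      simp only [Finset.mem_filter, Finset.mem_univ, true_and, Finset.mem_insert,
        Finset.mem_singleton, vec4]
      split_ifs <;> simp_all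
    rw [this, Finset.card_insert_of_notMem, Finset.card_insert_of_notMem,
      Finset.card_insert_of_notMem, Finset.card_singleton]
    · simpa using h34
    · simp [h23, h24]
    · simp [h12, h13, h14]

lemma main (C n : ℕ) (hn : ∃ q s t : ℕ, q = Fintype.card ((Fin (2 * C) → Bool) × (Fin (2 * C) → Bool)) ∧
    s = q + 1 ∧ t = s * s * q + 1 ∧ 2 * ((s + t) ^ 3 * (1 + 48 * C) + 1) ≤ n) :
    ¬ (J n 4 0).Colorable (C * n) := by
  classical
  obtain ⟨q, s, t, hq, hs, ht, hn⟩ := hn
  rintro ⟨col⟩
  have hn0 : 0 < n := by omega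
  -- the classes and their structure
  have hstr := fun c : Fin (C * n) => class_structure (n := n) {v | col v = c}
    (fun u hu v hv huv h0 => col.valid (show (J n 4 0).Adj u v from ⟨huv, h0⟩)
      ((show col u = c from hu).trans (show col v = c from hv).symm)) ⟨0, hn0⟩
  choose P cen W τ hP hW hF using hstr
  -- good centres
  let cnt : Fin n → ℕ := fun x => (Finset.univ.filter (fun c => cen c = x)).card
  let D : Type := {x : Fin n // cnt x ≤ 2 * C}
  set m := Fintype.card D with hm
  have hsum : ∑ x : Fin n, cnt x = C * n := by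
    have := Finset.card_eq_sum_card_fiberwise (f := cen) (s := Finset.univ) (t := Finset.univ)
      (fun _ _ => Finset.mem_coe.2 (Finset.mem_univ _))
    rw [Finset.card_univ, Fintype.card_fin] at this
    exact this.symm
  have hmn : n ≤ 2 * m := by
    have h1 : m = (Finset.univ.filter (fun x => cnt x ≤ 2 * C)).card := by
      rw [hm]; exact Fintype.card_subtype _
    have h2 := Finset.card_filter_add_card_filter_not (s := (Finset.univ : Finset (Fin n)))
      (fun x => cnt x ≤ 2 * C)
    rw [Finset.card_univ, Fintype.card_fin] at h2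
    have h3 : (Finset.univ.filter (fun x => ¬ cnt x ≤ 2 * C)).card * (2 * C + 1) ≤ C * n := by
      rw [← hsum]
      calc (Finset.univ.filter (fun x => ¬ cnt x ≤ 2 * C)).card * (2 * C + 1)
          = ∑ x ∈ Finset.univ.filter (fun x => ¬ cnt x ≤ 2 * C), (2 * C + 1) := by
            rw [Finset.sum_const, smul_eq_mul]
        _ ≤ ∑ x ∈ Finset.univ.filter (fun x => ¬ cnt x ≤ 2 * C), cnt x := by
            apply Finset.sum_le_sum
            intro x hx
            have := (Finset.mem_filter.1 hx).2
            omega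
        _ ≤ ∑ x : Fin n, cnt x := Finset.sum_le_sum_of_subset (Finset.filter_subset _ _)
    set b := (Finset.univ.filter (fun x => ¬ cnt x ≤ 2 * C)).card with hb
    have h4 : 2 * b ≤ n := by
      by_contra hcon
      have : n + 1 ≤ 2 * b := by omega
      nlinarith
    omega
  -- enumerations of the classes with a good centre
  have henum := fun x : D => exists_enum (Finset.univ.filter (fun c => cen c = x.1)) (2 * C) x.2
  choose g hg using henum
  let ty : D → D → (Fin (2 * C) → Bool) := fun x j r =>
    match g x r with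
    | some c => τ c j.1
    | none => false
  have hty : ∀ x j j' : D, ty x j = ty x j' → ∀ c, cen c = x.1 → τ c j.1 = τ c j'.1 := by
    intro x j j' h c hc
    obtain ⟨r, hr⟩ := hg x c (by simp [hc])
    have := congrFun h r
    simp only [ty, hr] at this
    exact this
  -- bad triples
  let T : Finset (Fin 3 → D) := Finset.univ.filter (fun w => w 0 = w 1 ∨
    (∃ c, ((w 0).1, (w 1).1) ∈ P c) ∨ ∃ c, cen c = (w 0).1 ∧ (w 2).1 ∈ W c (w 1).1)
  have hT : T.card ≤ (1 + 48 * C) * m ^ 2 := by
    have t1 : (Finset.univ.filter (fun w : Fin 3 → D => w 0 = w 1)).card ≤ m * m := by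
      have : (Finset.univ.filter (fun w : Fin 3 → D => w 0 = w 1)).card ≤
          (Finset.univ : Finset (D × D)).card := by
        apply Finset.card_le_card_of_injOn (fun w => (w 0, w 2))
        · intro _ _; exact Finset.mem_coe.2 (Finset.mem_univ _)
        · intro w hw w' hw' h
          simp only [Prod.mk.injEq] at h
          have e1 := (Finset.mem_filter.1 (Finset.mem_coe.1 hw)).2
          have e2 := (Finset.mem_filter.1 (Finset.mem_coe.1 hw')).2
          funext i
          fin_cases i
          · exact h.1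
          · exact e1.symm.trans (h.1.trans e2)
          · exact h.2
      rwa [Finset.card_univ, Fintype.card_prod] at this
    have t2 : (Finset.univ.filter (fun w : Fin 3 → D => ∃ c, ((w 0).1, (w 1).1) ∈ P c)).card ≤
        (16 * (C * n)) * m := by
      have h1 : (Finset.univ.filter (fun w : Fin 3 → D => ∃ c, ((w 0).1, (w 1).1) ∈ P c)).card ≤
          ((Finset.univ.biUnion P) ×ˢ (Finset.univ : Finset D)).card := by
        apply Finset.card_le_card_of_injOn (fun w => (((w 0).1, (w 1).1), w 2))
        · intro w hw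
          obtain ⟨c, hc⟩ := (Finset.mem_filter.1 (Finset.mem_coe.1 hw)).2
          exact Finset.mem_coe.2 (Finset.mem_product.2
            ⟨Finset.mem_biUnion.2 ⟨c, Finset.mem_univ _, hc⟩, Finset.mem_univ _⟩)
        · intro w _ w' _ h
          simp only [Prod.mk.injEq] at h
          funext i
          fin_cases i
          · exact Subtype.ext h.1.1
          · exact Subtype.ext h.1.2
          · exact h.2
      rw [Finset.card_product, Finset.card_univ (α := D)] at h1
      refine h1.trans (Nat.mul_le_mul_right _ ?_)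
      refine Finset.card_biUnion_le.trans ?_
      calc ∑ c : Fin (C * n), (P c).card ≤ ∑ _c : Fin (C * n), 16 :=
            Finset.sum_le_sum (fun c _ => hP c)
        _ = 16 * (C * n) := by
          rw [Finset.sum_const, Finset.card_univ, Fintype.card_fin, smul_eq_mul, mul_comm]
    have t3 : (Finset.univ.filter
        (fun w : Fin 3 → D => ∃ c, cen c = (w 0).1 ∧ (w 2).1 ∈ W c (w 1).1)).card ≤
        (C * n) * (n * 4) := by
      have h1 : (Finset.univ.filter
          (fun w : Fin 3 → D => ∃ c, cen c = (w 0).1 ∧ (w 2).1 ∈ W c (w 1).1)).card ≤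
          ((Finset.univ : Finset (Fin (C * n))).biUnion (fun c =>
            (Finset.univ : Finset (Fin n)).biUnion (fun y =>
              (W c y).image (fun z => (cen c, y, z))))).card := by
        apply Finset.card_le_card_of_injOn (fun w => ((w 0).1, (w 1).1, (w 2).1))
        · intro w hw
          obtain ⟨c, hc, hc'⟩ := (Finset.mem_filter.1 (Finset.mem_coe.1 hw)).2
          apply Finset.mem_coe.2
          rw [Finset.mem_biUnion]
          refine ⟨c, Finset.mem_univ _, ?_⟩
          rw [Finset.mem_biUnion]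
          refine ⟨(w 1).1, Finset.mem_univ _, ?_⟩
          rw [Finset.mem_image]
          exact ⟨(w 2).1, hc', by rw [hc]⟩
        · intro w _ w' _ h
          simp only [Prod.mk.injEq] at h
          funext i
          fin_cases i
          · exact Subtype.ext h.1
          · exact Subtype.ext h.2.1
          · exact Subtype.ext h.2.2
      refine h1.trans (Finset.card_biUnion_le.trans ?_)
      calc ∑ c : Fin (C * n), ((Finset.univ : Finset (Fin n)).biUnion (fun y =>
              (W c y).image (fun z => (cen c, y, z)))).card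
          ≤ ∑ _c : Fin (C * n), n * 4 := by
            apply Finset.sum_le_sum
            intro c _
            refine Finset.card_biUnion_le.trans ?_
            calc ∑ y : Fin n, ((W c y).image (fun z => (cen c, y, z))).card
                ≤ ∑ _y : Fin n, 4 := by
                  apply Finset.sum_le_sum
                  intro y _
                  exact Finset.card_image_le.trans (hW c y)
              _ = n * 4 := by
                rw [Finset.sum_const, Finset.card_univ, Fintype.card_fin, smul_eq_mul]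
        _ = (C * n) * (n * 4) := by
          rw [Finset.sum_const, Finset.card_univ, Fintype.card_fin, smul_eq_mul]
    have hsub : T ⊆ (Finset.univ.filter (fun w : Fin 3 → D => w 0 = w 1)) ∪
        ((Finset.univ.filter (fun w : Fin 3 → D => ∃ c, ((w 0).1, (w 1).1) ∈ P c)) ∪
        (Finset.univ.filter
          (fun w : Fin 3 → D => ∃ c, cen c = (w 0).1 ∧ (w 2).1 ∈ W c (w 1).1))) := by
      intro w hw
      have := (Finset.mem_filter.1 hw).2
      rw [Finset.mem_union, Finset.mem_union, Finset.mem_filter, Finset.mem_filter,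
        Finset.mem_filter]
      rcases this with h | h | h
      · exact Or.inl ⟨Finset.mem_univ _, h⟩
      · exact Or.inr (Or.inl ⟨Finset.mem_univ _, h⟩)
      · exact Or.inr (Or.inr ⟨Finset.mem_univ _, h⟩)
    have h5 := Finset.card_le_card hsub
    have h6 := Finset.card_union_le (Finset.univ.filter (fun w : Fin 3 → D => w 0 = w 1))
      ((Finset.univ.filter (fun w : Fin 3 → D => ∃ c, ((w 0).1, (w 1).1) ∈ P c)) ∪
        (Finset.univ.filter
          (fun w : Fin 3 → D => ∃ c, cen c = (w 0).1 ∧ (w 2).1 ∈ W c (w 1).1)))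
    have h7 := Finset.card_union_le
      (Finset.univ.filter (fun w : Fin 3 → D => ∃ c, ((w 0).1, (w 1).1) ∈ P c))
      (Finset.univ.filter
          (fun w : Fin 3 → D => ∃ c, cen c = (w 0).1 ∧ (w 2).1 ∈ W c (w 1).1))
    have h8 : (16 * (C * n)) * m ≤ 32 * C * (m * m) := by
      calc (16 * (C * n)) * m ≤ (16 * (C * (2 * m))) * m := by gcongr
        _ = 32 * C * (m * m) := by ring
    have h9 : (C * n) * (n * 4) ≤ 16 * C * (m * m) := by
      calc (C * n) * (n * 4) ≤ (C * (2 * m)) * ((2 * m) * 4) := by gcongr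
        _ = 16 * C * (m * m) := by ring
    calc T.card ≤ m * m + ((16 * (C * n)) * m + (C * n) * (n * 4)) := by omega
      _ ≤ m * m + (32 * C * (m * m) + 16 * C * (m * m)) := by omega
      _ = (1 + 48 * C) * m ^ 2 := by ring
  have hmbig : (s + t) ^ 3 * (1 + 48 * C) < m := by omega
  have hmpos : 0 < m := by omega
  obtain ⟨f, hf⟩ := exists_avoid (ι := Fin s ⊕ Fin t) T (by
    rw [Fintype.card_sum, Fintype.card_fin, Fintype.card_fin, ← hm]
    calc (s + t) ^ 3 * T.card ≤ (s + t) ^ 3 * ((1 + 48 * C) * m ^ 2) := by gcongr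
      _ = ((s + t) ^ 3 * (1 + 48 * C)) * m ^ 2 := by ring
      _ < m * m ^ 2 := by
        apply Nat.mul_lt_mul_of_pos_right hmbig
        positivity
      _ = m ^ 3 := by ring)
  obtain ⟨a1, a2, b1, b2, ha, hb, m1, m2, m3⟩ := exists_mono s t (by omega)
    (by rw [← hq]; omega) (fun a b => (ty (f (.inl a)) (f (.inr b)), ty (f (.inr b)) (f (.inl a))))
  simp only [Prod.mk.injEq] at m1 m2 m3
  -- facts about the chosen points
  have htrip : ∀ i j k : Fin s ⊕ Fin t, i ≠ j → i ≠ k → j ≠ k →
      f i ≠ f j ∧ (∀ c, ((f i).1, (f j).1) ∉ P c) ∧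
        ∀ c, cen c = (f i).1 → (f k).1 ∉ W c (f j).1 := by
    intro i j k hij hik hjk
    have hp : Function.Injective (![i, j, k] : Fin 3 → Fin s ⊕ Fin t) := by
      intro x y hxy
      fin_cases x <;> fin_cases y <;> simp_all
    have := hf _ hp
    simp only [T, Finset.mem_filter, Finset.mem_univ, true_and, Function.comp_apply,
      Matrix.cons_val_zero, Matrix.cons_val_one, Matrix.cons_val, not_or, not_exists,
      not_and] at this
    exact this
  let I : Finset (Fin s ⊕ Fin t) := {.inl a1, .inl a2, .inr b1, .inr b2}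
  have hI : I.card = 4 := by
    rw [Finset.card_insert_of_notMem, Finset.card_insert_of_notMem,
      Finset.card_insert_of_notMem, Finset.card_singleton]
    · simpa using hb
    · simp
    · simp [ha]
  have hthird : ∀ i j : Fin s ⊕ Fin t, ∃ k, i ≠ k ∧ j ≠ k := by
    intro i j
    by_contra hcon
    push Not at hcon
    have hsub : I ⊆ {i, j} := by
      intro k _
      rw [Finset.mem_insert, Finset.mem_singleton]
      by_cases h : i = k
      · exact Or.inl h.symm
      · exact Or.inr (hcon k h).symm
    have := Finset.card_le_card hsub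
    have := Finset.card_le_two (a := i) (b := j)
    omega
  have hfinj : ∀ i j, i ≠ j → (f i).1 ≠ (f j).1 := by
    intro i j hij h
    obtain ⟨k, hik, hjk⟩ := hthird i j
    exact (htrip i j k hij hik hjk).1 (Subtype.ext h)
  set x1 := (f (.inl a1)).1 with hx1
  set x2 := (f (.inl a2)).1 with hx2
  set x3 := (f (.inr b1)).1 with hx3
  set x4 := (f (.inr b2)).1 with hx4
  have h12 : x1 ≠ x2 := hfinj _ _ (by simpa using ha)
  have h13 : x1 ≠ x3 := hfinj _ _ (by simp)
  have h14 : x1 ≠ x4 := hfinj _ _ (by simp)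
  have h23 : x2 ≠ x3 := hfinj _ _ (by simp)
  have h24 : x2 ≠ x4 := hfinj _ _ (by simp)
  have h34 : x3 ≠ x4 := hfinj _ _ (by simpa using hb)
  let v : Vec n 4 := ⟨vec4 x1 x2 x3 x4, vec4_mem x1 x2 x3 x4 h12 h13 h14 h23 h24 h34⟩
  have v1 : v.1 x1 = 1 := by simp [v, vec4]
  have v2 : v.1 x2 = -1 := by simp [v, vec4, h12.symm]
  have v3 : v.1 x3 = 1 := by simp [v, vec4, h13.symm, h23.symm]
  have v4 : v.1 x4 = -1 := by simp [v, vec4, h14.symm, h24.symm, h34.symm]
  have hsupp : ∀ z, v.1 z ≠ 0 → ∃ i : Fin s ⊕ Fin t, (f i).1 = z := by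
    intro z hz
    by_cases e1 : z = x1
    · exact ⟨_, e1.symm⟩
    by_cases e2 : z = x2
    · exact ⟨_, e2.symm⟩
    by_cases e3 : z = x3
    · exact ⟨_, e3.symm⟩
    by_cases e4 : z = x4
    · exact ⟨_, e4.symm⟩
    exact absurd (by simp [v, vec4, e1, e2, e3, e4]) hz
  have hcase : ∀ z, v.1 z ≠ 0 → z = x1 ∨ z = x2 ∨ z = x3 ∨ z = x4 := by
    intro z hz
    by_contra hcon
    push Not at hcon
    exact hz (by simp [v, vec4, hcon.1, hcon.2.1, hcon.2.2.1, hcon.2.2.2])
  rcases hF (col v) v rfl with ⟨x, y, hxy, hne, hx, hy⟩ | ⟨hcen, hrest⟩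
  · obtain ⟨i, rfl⟩ := hsupp x hx
    obtain ⟨j, rfl⟩ := hsupp y hy
    have hij : i ≠ j := fun h => hne (by rw [h])
    obtain ⟨k, hik, hjk⟩ := hthird i j
    exact (htrip i j k hij hik hjk).2.1 _ hxy
  · have hrest' : ∀ j, j ≠ cen (col v) → v.1 j ≠ 0 →
        (v.1 (cen (col v)) * v.1 j = 1 ↔ τ (col v) j = true) := by
      intro j hj hvj
      rcases hrest j hj hvj with ⟨k, hkW, hki, hkj, hk⟩ | h
      · exfalso
        obtain ⟨i', hi'⟩ := hsupp _ hcen
        obtain ⟨j', hj'⟩ := hsupp _ hvj
        obtain ⟨k', hk'⟩ := hsupp _ hk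
        have e1 : i' ≠ j' := fun h => hj (by rw [← hi', ← hj', h])
        have e2 : i' ≠ k' := fun h => hki (by rw [← hi', ← hk', h])
        have e3 : j' ≠ k' := fun h => hkj (by rw [← hj', ← hk', h])
        refine (htrip i' j' k' e1 e2 e3).2.2 (col v) hi'.symm ?_
        rw [hj', hk']
        exact hkW
      · exact h
    rcases hcase _ hcen with hc | hc | hc | hc
    · have t3 := hrest' x3 (by rw [hc]; exact h13.symm) (by rw [v3]; norm_num)
      have t4 := hrest' x4 (by rw [hc]; exact h14.symm) (by rw [v4]; norm_num)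
      have e := hty (f (.inl a1)) (f (.inr b1)) (f (.inr b2)) m2.1.symm (col v) hc
      rw [hc, v1, v3] at t3
      rw [hc, v1, v4] at t4
      rw [e] at t3
      simp only [← hx4] at t3
      have : (1 : ℤ) * -1 = 1 := t4.2 (t3.1 (by norm_num))
      norm_num at this
    · have t3 := hrest' x3 (by rw [hc]; exact h23.symm) (by rw [v3]; norm_num)
      have t4 := hrest' x4 (by rw [hc]; exact h24.symm) (by rw [v4]; norm_num)
      have e := hty (f (.inl a2)) (f (.inr b1)) (f (.inr b2)) (m1.1.trans m3.1.symm) (col v) hc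
      rw [hc, v2, v3] at t3
      rw [hc, v2, v4] at t4
      rw [e] at t3
      simp only [← hx4] at t3
      have : (-1 : ℤ) * 1 = 1 := t3.2 (t4.1 (by norm_num))
      norm_num at this
    · have t1 := hrest' x1 (by rw [hc]; exact h13) (by rw [v1]; norm_num)
      have t2 := hrest' x2 (by rw [hc]; exact h23) (by rw [v2]; norm_num)
      have e := hty (f (.inr b1)) (f (.inl a1)) (f (.inl a2)) m1.2.symm (col v) hc
      rw [hc, v3, v1] at t1
      rw [hc, v3, v2] at t2
      rw [e] at t1
      simp only [← hx2] at t1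
      have : (1 : ℤ) * -1 = 1 := t2.2 (t1.1 (by norm_num))
      norm_num at this
    · have t1 := hrest' x1 (by rw [hc]; exact h14) (by rw [v1]; norm_num)
      have t2 := hrest' x2 (by rw [hc]; exact h24) (by rw [v2]; norm_num)
      have e := hty (f (.inr b2)) (f (.inl a1)) (f (.inl a2)) (m2.2.trans m3.2.symm) (col v) hc
      rw [hc, v4, v1] at t1
      rw [hc, v4, v2] at t2
      rw [e] at t1
      simp only [← hx2] at t1
      have : (-1 : ℤ) * 1 = 1 := t1.2 (t2.1 (by norm_num))
      norm_num at this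

/-- For every `C` the chromatic number of `J_±(n,4,0)` exceeds `C n` for all sufficiently
large `n`. -/
theorem result (C : ℕ) :
    ∃ N : ℕ, ∀ n : ℕ, N ≤ n → ((C * n : ℕ) : ℕ∞) < (J n 4 0).chromaticNumber := by
  set q := Fintype.card ((Fin (2 * C) → Bool) × (Fin (2 * C) → Bool)) with hq
  refine ⟨2 * (((q + 1) + ((q + 1) * (q + 1) * q + 1)) ^ 3 * (1 + 48 * C) + 1), fun n hn => ?_⟩
  by_contra hcon
  rw [not_lt, SimpleGraph.chromaticNumber_le_iff_colorable] at hcon
  exact main C n ⟨q, q + 1, (q + 1) * (q + 1) * q + 1, hq, rfl, rfl, hn⟩ hcon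

end Pool.Agent.Results.MP_9d843c_co.SignedOrthogonality
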